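import Pool.Agent.Helper68.Dom.Goals

/-!
# Packet DOM-XCON: the configuration of case B
-/

namespace NApexGraphs.Dom.Helper69

open SimpleGraph NApexGraphs.Dom

theorem gXCON : Goals.PSETS → Goals.TWO → Goals.XCON := by
  classical
  intro hP hT V _ G n u x hS hxu hdeg
  obtain ⟨X, hX⟩ := hP V G n u x hS hxu
  obtain ⟨p, q, hpq, hp, hq, hxp, hxq⟩ := hT V G n u x X hS hxu hX
  refine ⟨X, p, q, hS, hX, hxu, hpq, hp, hq, ?_⟩
  have hcard : (insert u (insert p (insert q X)) : Finset V).card = n + 3 := by
    rw [Finset.card_insert_of_notMem, Finset.card_insert_of_notMem,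
      Finset.card_insert_of_notMem, hX.card]
    · exact hq.1
    · simp only [Finset.mem_insert, not_or]
      exact ⟨hpq, hp.1⟩
    · simp only [Finset.mem_insert, not_or]
      exact ⟨fun h => hp.2.1 h.symm, fun h => hq.2.1 h.symm, hX.hu⟩
  have hsub : ((insert u (insert p (insert q X)) : Finset V) : Set V) ⊆ G.neighborSet x := by
    intro z hz
    simp only [Finset.coe_insert, Set.mem_insert_iff, Finset.mem_coe] at hz
    rw [mem_neighborSet]
    rcases hz with rfl | rfl | rfl | hz
    · exact (hS.dom x hxu).symm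
    · exact hxp
    · exact hxq
    · exact hX.nbr z hz
  have heq := Set.eq_of_subset_of_ncard_le hsub
    (by rw [Set.ncard_coe_finset, hcard]; exact hdeg) (Set.toFinite _)
  intro z
  rw [← mem_neighborSet, ← heq]
  simp only [Finset.coe_insert, Set.mem_insert_iff, Finset.mem_coe]
  tauto

end NApexGraphs.Dom.Helper69
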